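import Pool.Agent.Q100.CQ.Main

set_option autoImplicit false

/-!
# Dade's invariant conjecture, summed over the defects and blocks, for cyclic `E / G`

`G` is a normal subgroup of the finite group `E` with `O_p(G) = 1` and `E / G` is cyclic.  Dade's
invariant conjecture, summed over all blocks of positive defect and all defects, is shown to be
equivalent to the vanishing of certain sums of the failures of the equality of Knörr and Robinson
(Alperin's weight conjecture) for subgroups of `E`; if `p` does not divide `|E / G|`, it is equivalent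
to the equality of Knörr and Robinson for all groups between `G` and `E`.

Method: both sides of the conjecture for the coset `eG` are sums over the pairs `(x, y)` in `G × eG`, of
the Euler characteristic of the poset of `p`-subgroups of `G` normalised by `x` and `y` if `x` and `y`
commute, and of the value of the central idempotent of the characters of defect zero at `[x, y]`.  These
weights are invariant under `(x, y) ↦ (x, y x)` and `(x, y) ↦ (y, x⁻¹)`, so the sum over `aG × bG` depends
only on the (cyclic) subgroup `⟨a, b⟩` of `E / G`, and they do not change if `G` is replaced by a group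
`M` with `p ∤ |M : G|` (Clifford theory for abelian quotients of order prime to `p`).
-/

open scoped Classical
open Pool.Agent.Q100.IV (IsRadChain radSum inert IsOp)
open Pool.Agent.Y63.KR (alternatingSum)

namespace Pool.Agent.Results.MP_baa4d7_al.CyclicQuotients

/-- `χ` is the character of an irreducible complex representation of `H`. -/
def IsIrreducibleCharacter {H : Type} [Group H] (χ : H → ℂ) : Prop :=
  ∃ (V : Type) (_ : AddCommGroup V) (_ : Module ℂ V) (_ : FiniteDimensional ℂ V)
    (ρ : Representation ℂ H V), ρ.IsIrreducible ∧ χ = ρ.character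

/-- `χ` has `p`-defect zero: `χ(1)_p = |H|_p`. -/
def DefectZero (p : ℕ) {H : Type} [Group H] (χ : H → ℂ) : Prop :=
  ∃ n : ℕ, χ 1 = (n : ℂ) ∧ n.factorization p = (Nat.card H).factorization p

/-- `N_{E/G}(C, ψ)`: the image in `E / G` of the stabiliser of `ψ ∈ Irr(N_G(C))` in `S = N_E(C)`. -/
noncomputable def stab {E : Type} [Group E] (G S : Subgroup E) [G.Normal]
    (ψ : (G ⊓ S : Subgroup E) → ℂ) : Subgroup (E ⧸ G) :=
  (inert G S ψ).map (QuotientGroup.mk' G)

/-- `k_C(U)`, `S = N_E(C)`: the number of the irreducible characters `ψ` of `N_G(C)` with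
`N_{E/G}(C, ψ) = U`. -/
noncomputable def k {E : Type} [Group E] (G : Subgroup E) [G.Normal] (U : Subgroup (E ⧸ G))
    (S : Subgroup E) : ℕ :=
  Nat.card {ψ : (G ⊓ S : Subgroup E) → ℂ // IsIrreducibleCharacter ψ ∧ stab G S ψ = U}

/-- the number of the irreducible characters of `G` (the case of the chain with the only member `1`,
`S = E`) of defect zero with stabiliser `U` -/
noncomputable def k0 {E : Type} [Group E] (p : ℕ) (G : Subgroup E) [G.Normal]
    (U : Subgroup (E ⧸ G)) : ℕ :=
  Nat.card {ψ : (G ⊓ ⊤ : Subgroup E) → ℂ // IsIrreducibleCharacter ψ ∧ DefectZero p ψ ∧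
    stab G ⊤ ψ = U}

/-- Dade's invariant conjecture for `G ⊲ E`, summed over all blocks of positive defect and all `d`:
for every subgroup `U` of `E / G` the sum `∑_C (-1)^|C| k_C(U)` over representatives of the `G`-classes of
radical `p`-chains of `G` is the number of the irreducible characters of `G` of defect zero with
stabiliser `U`. -/
def SummedInvariantConjecture {E : Type} [Group E] (p : ℕ) (G : Subgroup E) [G.Normal] : Prop :=
  ∀ U : Subgroup (E ⧸ G), radSum p G (fun S => (k G U S : ℤ)) = (k0 p G U : ℤ)

/-- The failure of the equality of Knörr and Robinson for `H`: `∑_σ (-1)^|σ| k(H_σ) - z_p(H)`, where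
`σ` runs through the classes of chains of nontrivial `p`-subgroups of `H` (the empty chain included),
`k(H_σ)` is the class number of the stabiliser and `z_p(H)` the number of the irreducible characters
of `H` of defect zero. -/
noncomputable def failure (p : ℕ) (H : Type) [Group H] : ℤ :=
  alternatingSum p H (fun K => (Nat.card (ConjClasses K) : ℤ)) -
    (Nat.card {χ : H → ℂ // IsIrreducibleCharacter χ ∧ DefectZero p χ} : ℤ)

/-- `C_M(u)` -/
def C {E : Type} [Group E] (M : Subgroup E) (u : E) : Subgroup E :=
  M ⊓ Subgroup.centralizer ({u} : Set E)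

/-- The sum of the `|C_M(u)| failure(C_M(u))` over the elements `u` of order `p^a` of the coset `eM`. -/
noncomputable def weightedFailure {E : Type} [Group E] (p : ℕ) (M : Subgroup E) (e : E) (a : ℕ) : ℤ :=
  ∑ᶠ u : {u : E // u * e⁻¹ ∈ M ∧ orderOf u = p ^ a},
    (Nat.card (C M (u : E)) : ℤ) * failure p (C M (u : E))

lemma wf_eq {E : Type} [Group E] [Finite E] {p : ℕ} [Fact p.Prime] {M : Subgroup E} (e : E) (a : ℕ) :
    weightedFailure p M e a = Pool.Agent.Q100.CQ.wf p M e a := by
  let _ : Fintype E := Fintype.ofFinite E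
  unfold weightedFailure Pool.Agent.Q100.CQ.wf
  rw [finsum_eq_sum_of_fintype, Finset.sum_subtype (Finset.univ.filter (fun u : E =>
    u * e⁻¹ ∈ M ∧ orderOf u = p ^ a)) (p := fun u : E => u * e⁻¹ ∈ M ∧ orderOf u = p ^ a)
    (fun u => by simp)]
  rfl

/-- **Theorem.** Let `G` be a normal subgroup of the finite group `E` with `O_p(G) = 1` and cyclic
quotient `E / G`.

(1) The invariant conjecture for `G ⊲ E`, summed over blocks and `d`, holds if and only if for all
groups `G ≤ M ≤ E` with `p ∤ |M : G|` (they are normal) and all cosets `eM` of `p`-power order `p^a` in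
`E / M` the sum of the `|C_M(u)| failure(C_M(u))` over the elements `u` of `eM` of order `p^a` is zero.

(2) If `p` does not divide `|E / G|`, it holds if and only if the equality of Knörr and Robinson holds for
all groups `G ≤ M ≤ E`. -/
theorem result (p : ℕ) (hp : p.Prime) (E : Type) [Group E] [Finite E] (G : Subgroup E) [G.Normal]
    (hO : IsOp p G ⊥) (hc : IsCyclic (E ⧸ G)) :
    (SummedInvariantConjecture p G ↔
      ∀ (M : Subgroup E) [M.Normal], G ≤ M → ¬ p ∣ G.relIndex M → ∀ (e : E) (a : ℕ),
        orderOf (e : E ⧸ M) = p ^ a → weightedFailure p M e a = 0) ∧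
    (¬ p ∣ Nat.card (E ⧸ G) →
      (SummedInvariantConjecture p G ↔ ∀ M : Subgroup E, G ≤ M → failure p M = 0)) := by
  have : Fact p.Prime := ⟨hp⟩
  have hO' := Pool.Agent.Q100.IV.isOp_iff.mp hO
  have h1 : SummedInvariantConjecture p G ↔
      ∀ (M : Subgroup E) [M.Normal], G ≤ M → ¬ p ∣ G.relIndex M → ∀ (e : E) (a : ℕ),
        orderOf (e : E ⧸ M) = p ^ a → weightedFailure p M e a = 0 := by
    refine Iff.trans (Pool.Agent.Q100.CQ.main hO' hc) ?_
    constructor
    · intro h M _ h2 h3 e a h4
      rw [wf_eq]
      exact h M h2 h3 e a h4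
    · intro h M _ h2 h3 e a h4
      rw [← wf_eq]
      exact h M h2 h3 e a h4
  refine ⟨h1, fun hpE => ?_⟩
  rw [h1]
  have hcomm : ∀ a b : E ⧸ G, a * b = b * a := fun a b => by
    obtain ⟨g, hg⟩ := hc.exists_generator
    obtain ⟨i, rfl⟩ := Subgroup.mem_zpowers_iff.mp (hg a)
    obtain ⟨j, rfl⟩ := Subgroup.mem_zpowers_iff.mp (hg b)
    rw [← zpow_add, ← zpow_add, add_comm]
  have hab : ∀ x y : E, x * y * x⁻¹ * y⁻¹ ∈ G := by
    intro x y
    rw [← QuotientGroup.eq_one_iff, QuotientGroup.mk_mul, QuotientGroup.mk_mul,
      QuotientGroup.mk_mul, hcomm (x : E ⧸ G) (y : E ⧸ G), ← QuotientGroup.mk_mul,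
      ← QuotientGroup.mk_mul, ← QuotientGroup.mk_mul]
    have : y * x * x⁻¹ * y⁻¹ = 1 := by group
    rw [this]
    rfl
  have hone : ∀ M : Subgroup E, weightedFailure p M 1 0 = (Nat.card M : ℤ) * failure p M := by
    intro M
    unfold weightedFailure
    have hC : C M 1 = M := by
      unfold C
      rw [inf_eq_left]
      intro x _
      rw [Subgroup.mem_centralizer_iff]
      rintro y rfl
      rw [one_mul, mul_one]
    rw [finsum_eq_single _ ⟨1, by rw [inv_one, mul_one]; exact M.one_mem, by simp⟩]
    · change (Nat.card (C M 1) : ℤ) * failure p (C M 1) = _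
      rw [hC]
    · rintro ⟨u, hu, hu1⟩ hne
      exfalso
      apply hne
      rw [pow_zero, orderOf_eq_one_iff] at hu1
      exact Subtype.ext hu1
  have hM0 : ∀ M : Subgroup E, (Nat.card M : ℤ) ≠ 0 := fun M => by
    exact_mod_cast Nat.card_pos.ne'
  have hdvd : ∀ M : Subgroup E, G ≤ M → ¬ p ∣ G.relIndex M ∧ ¬ p ∣ M.index := by
    intro M hGM
    have h2 := Subgroup.relIndex_mul_index hGM
    have h3 : G.index = Nat.card (E ⧸ G) := rfl
    rw [h3] at h2
    exact ⟨fun h => hpE (h.trans (h2 ▸ dvd_mul_right _ _)),
      fun h => hpE (h.trans (h2 ▸ dvd_mul_left _ _))⟩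
  constructor
  · intro H M hGM
    have hMn : M.Normal := Pool.Agent.Q100.CQ.normal_of_comm hab hGM
    have h2 := H M hGM (hdvd M hGM).1 1 0 (by
      rw [QuotientGroup.mk_one, orderOf_one, pow_zero])
    rw [hone] at h2
    rcases mul_eq_zero.mp h2 with h3 | h3
    · exact absurd h3 (hM0 M)
    · exact h3
  · intro H M _ hGM hpM e a he
    have h2 : p ^ a ∣ M.index := by
      rw [← he]
      exact orderOf_dvd_natCard _
    have h3 : a = 0 := by
      by_contra ha
      exact (hdvd M hGM).2 ((dvd_pow_self p ha).trans h2)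
    subst h3
    have h4 : e ∈ M := by
      rw [pow_zero, orderOf_eq_one_iff] at he
      exact (QuotientGroup.eq_one_iff e).mp he
    have h5 : weightedFailure p M e 0 = weightedFailure p M 1 0 := by
      unfold weightedFailure
      have h6 : ∀ u : E, (u * e⁻¹ ∈ M ∧ orderOf u = p ^ 0) ↔ (u * 1⁻¹ ∈ M ∧ orderOf u = p ^ 0) := by
        intro u
        refine and_congr ?_ Iff.rfl
        rw [inv_one, mul_one]
        exact M.mul_mem_cancel_right (M.inv_mem h4)
      exact finsum_comp_equiv (Equiv.subtypeEquivRight h6)
        (f := fun u : {u : E // u * 1⁻¹ ∈ M ∧ orderOf u = p ^ 0} =>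
          (Nat.card (C M (u : E)) : ℤ) * failure p (C M (u : E)))
    rw [h5, hone, H M hGM, mul_zero]

end Pool.Agent.Results.MP_baa4d7_al.CyclicQuotients
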