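import Pool.Agent.Q100.IV.Main

set_option autoImplicit false

/-!
# Dade's invariant conjecture, summed over the defects and blocks, for non-split stabilisers

`G` is a normal subgroup of the finite group `E` with `O_p(G) = 1`.  For a subgroup `U` of `E / G` the
alternating sum in Dade's invariant conjecture, summed over all blocks of `G` and all defects, is
`∑_C (-1)^|C| k_C(U)`, where `C` runs through the `G`-classes of radical `p`-chains of `G` and `k_C(U)`
is the number of the irreducible characters `ψ` of `N_G(C)` with `N_{E/G}(C, ψ) = U`.  It is shown to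
vanish if `E / G` is cyclic and the Sylow `p`-subgroup of `U` does not split over `G`.

Method: the sum of the numbers of the characters of `N_G(C)` invariant under the coset `eG` is a sum over
commuting pairs `(x, y)` in `G × eG`; if no `p`-element of `⟨y⟩` splits, `⟨y⟩ ∩ G` contains a nontrivial
`p`-subgroup centralised by `x` and `y`, and the chains normalised by `x` and `y` cancel.  The sums over
radical chains and over all chains agree for every group of operators.
-/

open scoped Classical
open Pool.Agent.Q100.IV (IsRadChain radSum inert NonSplit IsOp)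

namespace Pool.Agent.Results.MP_baa4d7_al.NonsplitStabilizers

/-- `χ` is the character of an irreducible complex representation of `H`. -/
def IsIrreducibleCharacter {H : Type} [Group H] (χ : H → ℂ) : Prop :=
  ∃ (V : Type) (_ : AddCommGroup V) (_ : Module ℂ V) (_ : FiniteDimensional ℂ V)
    (ρ : Representation ℂ H V), ρ.IsIrreducible ∧ χ = ρ.character

/-- `N_{E/G}(C, ψ)`: the image in `E / G` of the stabiliser of `ψ ∈ Irr(N_G(C))` in `S = N_E(C)`. -/
noncomputable def stab {E : Type} [Group E] (G S : Subgroup E) [G.Normal]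
    (ψ : (G ⊓ S : Subgroup E) → ℂ) : Subgroup (E ⧸ G) :=
  (inert G S ψ).map (QuotientGroup.mk' G)

/-- `k_C(U)`, `S = N_E(C)`: the number of the irreducible characters `ψ` of `N_G(C)` with
`N_{E/G}(C, ψ) = U`. -/
noncomputable def k {E : Type} [Group E] (G : Subgroup E) [G.Normal] (U : Subgroup (E ⧸ G))
    (S : Subgroup E) : ℕ :=
  Nat.card {ψ : (G ⊓ S : Subgroup E) → ℂ // IsIrreducibleCharacter ψ ∧ stab G S ψ = U}

/-- the number of the irreducible characters `ψ` of `N_G(C)` such that `N_{E/G}(C, ψ)` contains the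
coset `e` -/
noncomputable def inv {E : Type} [Group E] (G : Subgroup E) [G.Normal] (e : E ⧸ G)
    (S : Subgroup E) : ℕ :=
  Nat.card {ψ : (G ⊓ S : Subgroup E) → ℂ // IsIrreducibleCharacter ψ ∧ e ∈ stab G S ψ}

/-- **Theorem.** Let `G` be a normal subgroup of the finite group `E` with `O_p(G) = 1`.

(1) For every coset `eG` such that the subgroup of `E / G` generated by it does not split at `p`,
`∑_C (-1)^|C| #{ψ ∈ Irr(N_G(C)) : eG ∈ N_{E/G}(C, ψ)} = 0`.

(2) If `E / G` is cyclic, `∑_C (-1)^|C| k_C(U) = 0` for every subgroup `U` of `E / G` which does not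
split at `p`.

`C` runs through representatives of the `G`-classes of radical `p`-chains `1 = P_0 < P_1 < ⋯ < P_n` of
`G`, and `|C| = n`. -/
theorem result (p : ℕ) (hp : p.Prime) (E : Type) [Group E] [Finite E] (G : Subgroup E) [G.Normal]
    (hO : IsOp p G ⊥) :
    (∀ e : E, NonSplit p G (Subgroup.zpowers (e : E ⧸ G)) →
      radSum p G (fun S => (inv G (e : E ⧸ G) S : ℤ)) = 0) ∧
    (IsCyclic (E ⧸ G) → ∀ U : Subgroup (E ⧸ G), NonSplit p G U →
      radSum p G (fun S => (k G U S : ℤ)) = 0) := by
  have : Fact p.Prime := ⟨hp⟩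
  have hO' := Pool.Agent.Q100.IV.isOp_iff.mp hO
  refine ⟨fun e he => ?_, fun hc U hU => ?_⟩
  · have h1 := Pool.Agent.Q100.IV.radSum_aa_zero (p := p) hO' he e le_rfl
    have h2 : (fun S : Subgroup E => (inv G (e : E ⧸ G) S : ℤ)) =
        fun S => (Pool.Agent.Q100.IV.aa G S e : ℤ) := by
      funext S
      congr 1
      unfold inv Pool.Agent.Q100.IV.aa
      refine Nat.card_congr (Equiv.subtypeEquivRight fun ψ => and_congr Iff.rfl ?_)
      unfold stab
      rw [Subgroup.mem_map]
      constructor
      · rintro ⟨y, ⟨hy, hf⟩, hye⟩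
        refine ⟨y, hy, ?_, hf⟩
        change (y : E ⧸ G) = (e : E ⧸ G) at hye
        rw [QuotientGroup.eq] at hye
        have h2 := ‹G.Normal›.conj_mem _ (G.inv_mem hye) y
        have e2 : y * (y⁻¹ * e)⁻¹ * y⁻¹ = y * e⁻¹ := by group
        rwa [e2] at h2
      · rintro ⟨y, hy, hye, hf⟩
        refine ⟨y, ⟨hy, hf⟩, ?_⟩
        change (y : E ⧸ G) = (e : E ⧸ G)
        rw [QuotientGroup.eq]
        have h2 := ‹G.Normal›.conj_mem _ (G.inv_mem hye) y⁻¹
        have e2 : y⁻¹ * (y * e⁻¹)⁻¹ * y⁻¹⁻¹ = y⁻¹ * e := by group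
        rwa [e2] at h2
    rw [h2]
    exact h1
  · exact Pool.Agent.Q100.IV.radSum_kU_zero hO' hc hU

end Pool.Agent.Results.MP_baa4d7_al.NonsplitStabilizers
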