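import Pool.Agent.Q99.AS.InvK

/-!
# Dade's invariant conjecture: the alternating sums are multiplicative, one inequality suffices

Let `p` be a prime and `red` a homomorphism from the ring of algebraic integers to a field of
characteristic `p`; its kernel is a maximal ideal that contains `p`.  The `p`-blocks of the finite group
`G` are the sets of irreducible characters with the same central character modulo this ideal.
For a subgroup `N` and `ψ ∈ Irr(N)`, `b(ψ)^G = b(χ)` means that, modulo the ideal, the central
character of `ψ` has at the sum of the elements of `N` in a conjugacy class of `G` the same value as the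
central character of `χ` at the sum of this class (`Pool.Agent.Q99.AS.Ind` for the inclusion `N ≤ G`).

`radSum p G f` (`Pool.Agent.Q100.IV.Main`) is the alternating sum `∑_C (-1)^|C| f(N_E(C))` over
representatives of the `G`-conjugacy classes of radical `p`-chains `C` of the normal subgroup `G` of
`E`, for `O_p(G) = 1` (the term `P_0 = 1` of a chain is omitted).

Outline of the proof.  `|G|` times the alternating sum is the sum over all radical chains of
`(-1)^|C| |N_G(C)| f(N_E(C))`, and a function of subgroups is a sum of indicator functions of the sets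
`{H : H ≥ K}`.  So the sums are determined by the signed numbers of the radical chains normalised by the
subgroups `K` of `E`, and these are the signed numbers of all chains of nontrivial `p`-subgroups of `G`
normalised by `K`.  For a subgroup `K` of `E × E'` the poset of these subgroups of `G × G'` is connected
with the product of the two corresponding posets for the projections of `K` by a Galois connection, and
these numbers are products by P. Hall's theorem.  On the side of the characters the blocks of `G × G'`
are the products of blocks, defects add up, and the stabilizer of `θ ⊗ ψ` is a direct product.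
-/

set_option autoImplicit false

namespace Pool.Agent.Results.MP_baa4d7_al.OneSidedInvariant

open Pool.Agent.Q99.AS Pool.Agent.Helper884.IC
open Pool.Agent.Q100.IV (radSum inert IsOp isOp_iff)

variable {F : Type} [Field F]

/-- `ψ` has `p`-defect `d`: the `p`-part of `ψ(1)` times `p ^ d` is the `p`-part of `|H|`. -/
def HasDefect (p d : ℕ) {H : Type} [Group H] (ψ : H → ℂ) : Prop :=
  ∃ n : ℕ, ψ 1 = n ∧ n.factorization p + d = (Nat.card H).factorization p

/-- `k_C(B, d, U)` for `S = N_E(C)`, so that `G ⊓ S = N_G(C)`, and the block `B` of `χ`: the number of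
the `ψ ∈ Irr(N_G(C))` of `p`-defect `d` with `b(ψ)^G = B` and `N_E(C, ψ) G / G = U`. -/
noncomputable def k (p : ℕ) (red : integralClosure ℤ ℂ →+* F) {E : Type} [Group E] (G : Subgroup E)
    [G.Normal] (χ : G → ℂ) (U : Subgroup (E ⧸ G)) (d : ℕ) (S : Subgroup E) : ℤ :=
  Nat.card {ψ : (G ⊓ S : Subgroup E) → ℂ // IsIrrChar ψ ∧
    (Ind red (Subgroup.inclusion (inf_le_left : G ⊓ S ≤ G)) χ ψ ∧ HasDefect p d ψ ∧
      (inert G S ψ).map (QuotientGroup.mk' G) = U)}

/-- Dade's alternating sum `∑_C (-1)^|C| k_C(B, d, U)` for the block `B` of `χ`, over representatives of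
the `G`-classes of radical `p`-chains of `G`. -/
noncomputable def sum (p : ℕ) (red : integralClosure ℤ ℂ →+* F) {E : Type} [Group E]
    (G : Subgroup E) [G.Normal] (χ : G → ℂ) (U : Subgroup (E ⧸ G)) (d : ℕ) : ℤ :=
  radSum p G (k p red G χ U d)

/-- The hypotheses of the conjecture: `O_p(G) = 1`, `χ ∈ Irr(G)`, and the defect of `χ` is not `0`, that
is, the defect groups of the block of `χ` are not trivial. -/
def Datum (p : ℕ) {E : Type} [Group E] (G : Subgroup E) (χ : G → ℂ) : Prop :=
  IsOp p G ⊥ ∧ IsIrrChar χ ∧ ∃ d, 0 < d ∧ HasDefect p d χ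

/-- `Q` holds for the orders `|E|` and the sequences `d ↦ ∑_C (-1)^|C| k_C(B, d, U)` of all data as in
the conjecture with `(E, G)` in the class `X`. -/
def All (p : ℕ) (red : integralClosure ℤ ℂ →+* F)
    (X : ∀ (E : Type) [Group E] [Finite E] (_ : Subgroup E), Prop)
    (Q : ℕ → (ℕ → ℤ) → Prop) : Prop :=
  ∀ (E : Type) [Group E] [Finite E] (G : Subgroup E) [G.Normal] (χ : G → ℂ) (U : Subgroup (E ⧸ G)),
    X E G → Datum p G χ → Q (Nat.card E) (sum p red G χ U)

theorem sum_eq (p : ℕ) (red : integralClosure ℤ ℂ →+* F) {E : Type} [Group E] (G : Subgroup E)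
    [G.Normal] (χ : G → ℂ) (U : Subgroup (E ⧸ G)) :
    sum p red G χ U = isum red p G χ U := rfl

theorem Datum.sq {p : ℕ} [Fact p.Prime] {E : Type} [Group E] [Finite E] {G : Subgroup E} [G.Normal]
    {χ : G → ℂ} (h : Datum p G χ) : Datum p (G.prod G) (tenG χ χ) := by
  obtain ⟨h1, h2, d, hd, h3⟩ := h
  refine ⟨?_, tenG_irr h2 h2, d + d, by omega, tenG_dft h2 h2 h3 h3⟩
  rw [isOp_iff] at h1 ⊢
  exact op_prod h1 h1

/-- Let `p` be a prime and `red` the reduction of the algebraic integers modulo a maximal ideal that
contains `p`.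
(1) Let `G`, `G'` be normal subgroups of the finite groups `E`, `E'`, `O_p(G) = 1`, `O_p(G') = 1`.  The
alternating sums for the block `B ⊗ B'` of `G × G'` and the subgroup `U × U'` of
`(E × E') / (G × G')` are the convolution of those for `(B, U)` and `(B', U')`, and for the subgroups
not of this form they are `0`.
Let `X` be a class of pairs `(E, G)` closed under direct squares, for instance that of all pairs.
(2) The conjecture (all sums are `0`) holds for the pairs in `X` if and only if for each block and each
`U` in the sequence of the sums, in the order of increasing defect, the first nonzero member (if any)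
is negative.
(3) For a transcendental real number `t` the conjecture holds for the pairs in `X` if and only if
`∑_d t^d ∑_C (-1)^|C| k_C(B, d, U) ≤ 0` for each block `B` and each `U`.
(4) For each block and each `U` at most one of the sums is not `0`, and this one is `1` or `-1`, if and
only if for each `ε > 0` there is `C` such that all the sums are `≤ C |E|^ε`. -/
theorem result (p : ℕ) [Fact p.Prime] (F : Type) [Field F] [CharP F p]
    (red : integralClosure ℤ ℂ →+* F) :
    (∀ (E E' : Type) [Group E] [Group E'] [Finite E] [Finite E'] (G : Subgroup E)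
      (G' : Subgroup E') [G.Normal] [G'.Normal] (χ : G → ℂ) (χ' : G' → ℂ), IsOp p G ⊥ →
      IsOp p G' ⊥ → IsIrrChar χ → IsIrrChar χ' → ∀ d : ℕ,
        (∀ (U : Subgroup (E ⧸ G)) (U' : Subgroup (E' ⧸ G')),
          sum p red (G.prod G') (tenG χ χ') (prodU G G' U U') d =
            ∑ i ∈ Finset.HasAntidiagonal.antidiagonal d,
              sum p red G χ U i.1 * sum p red G' χ' U' i.2) ∧
        ∀ W : Subgroup ((E × E') ⧸ G.prod G'), (∀ U U', prodU G G' U U' ≠ W) →
          sum p red (G.prod G') (tenG χ χ') W d = 0) ∧
    ∀ X : ∀ (E : Type) [Group E] [Finite E] (_ : Subgroup E), Prop,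
      (∀ (E : Type) [Group E] [Finite E] (G : Subgroup E), X E G → X (E × E) (G.prod G)) →
        (All p red X (fun _ s => ∀ d, s d = 0) ↔
          All p red X (fun _ s => ∀ d, (∀ e, e < d → s e = 0) → s d ≤ 0)) ∧
        (∀ t : ℝ, Transcendental ℤ t → (All p red X (fun _ s => ∀ d, s d = 0) ↔
          All p red X (fun _ s => ∑ᶠ d : ℕ, (s d : ℝ) * t ^ d ≤ 0))) ∧
        (All p red X (fun _ s => ∀ N, ∑ d ∈ Finset.range N, s d ^ 2 ≤ 1) ↔
          ∀ ε : ℝ, 0 < ε → ∃ C : ℝ, All p red X (fun n s => ∀ d, (s d : ℝ) ≤ C * (n : ℝ) ^ ε)) := by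
  refine ⟨fun E E' _ _ _ _ G G' _ _ χ χ' a b c e d => ⟨fun U U' => isum_prod red a b c e U U' d,
    fun W hW => isum_other red a b hW d⟩, fun X hX => ?_⟩
  let P : ℕ → (ℕ → ℤ) → Prop := fun n s => ∃ (E : Type) (_ : Group E) (_ : Finite E)
      (G : Subgroup E) (_ : G.Normal) (χ : G → ℂ) (U : Subgroup (E ⧸ G)), X E G ∧ Datum p G χ ∧
        n = Nat.card E ∧ s = sum p red G χ U
  have hP : ∀ Q : ℕ → (ℕ → ℤ) → Prop, All p red X Q ↔ ∀ n s, P n s → Q n s := by
    intro Q
    constructor
    · rintro h n s ⟨E, _, _, G, _, χ, U, hG, hd, rfl, rfl⟩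
      exact h E G χ U hG hd
    · intro h E _ _ G _ χ U hG hd
      exact h _ _ ⟨E, inferInstance, inferInstance, G, inferInstance, χ, U, hG, hd, rfl, rfl⟩
  have hpos : ∀ n s, P n s → 1 ≤ n := by
    rintro n s ⟨E, _, _, G, _, χ, U, -, -, rfl, -⟩
    exact Nat.card_pos
  have hsupp : ∀ n s, P n s → ∀ d, Nat.log 2 n < d → s d = 0 := by
    rintro n s ⟨E, _, _, G, _, χ, U, -, -, rfl, rfl⟩ d hd
    exact isum_supp red (Fact.out : p.Prime) G χ U hd
  have hsq : ∀ n s, P n s → P (n * n) (conv s s) := by
    rintro n s ⟨E, _, _, G, _, χ, U, hG, hd, rfl, rfl⟩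
    refine ⟨E × E, inferInstance, inferInstance, G.prod G, inferInstance, tenG χ χ, prodU G G U U,
      hX E G hG, hd.sq, (Nat.card_prod E E).symm, ?_⟩
    obtain ⟨a, c, -⟩ := hd
    funext e
    exact (isum_prod red a a c c U U e).symm
  have h1 := dichotomy hpos hsupp hsq
  refine ⟨?_, fun t ht => ?_, ?_⟩
  · rw [hP, hP]
    exact h1.1
  · rw [hP, hP]
    exact real_ineq hsupp hsq t ht
  · rw [hP]
    simp only [hP]
    exact h1.2

end Pool.Agent.Results.MP_baa4d7_al.OneSidedInvariant
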