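import Pool.Agent.Q100.IV.Fin

set_option autoImplicit false

/-!
# Dade's invariant conjecture, summed over the defects and blocks: reduction to centralisers

`G` is a normal subgroup of the finite group `E` with `O_p(G) = 1`.  For an element `eG` of `E / G` of
order `p^a` the failure of Dade's invariant conjecture for the characters invariant under `eG`, summed
over all blocks and all defects, is the sum of the failures of the equality of Knörr and Robinson
(Alperin's weight conjecture) for the centralisers `C_G(u)`, `u` running through the elements of order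
`p^a` of `eG`.

Method: commuting pairs `(x, y)` in `G × eG`; the chains cancel unless the `p`-part `u` of `y` has order
`p^a`, and then the poset of `p`-subgroups of `G` normalised by `u` retracts to the one of `C_G(u)` by
`R ↦ C_R(u)`; the characters of defect zero are counted by the correspondence of Dade, Glauberman and
Nagao.
-/

open scoped Classical
open Pool.Agent.Q100.IV (IsRadChain radSum inert IsOp)
open Pool.Agent.Y63.KR (alternatingSum)

namespace Pool.Agent.Results.MP_baa4d7_al.ReductionToCentralizers

/-- `χ` is the character of an irreducible complex representation of `H`. -/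
def IsIrreducibleCharacter {H : Type} [Group H] (χ : H → ℂ) : Prop :=
  ∃ (V : Type) (_ : AddCommGroup V) (_ : Module ℂ V) (_ : FiniteDimensional ℂ V)
    (ρ : Representation ℂ H V), ρ.IsIrreducible ∧ χ = ρ.character

/-- `χ` has `p`-defect zero: `χ(1)_p = |H|_p`. -/
def DefectZero (p : ℕ) {H : Type} [Group H] (χ : H → ℂ) : Prop :=
  ∃ n : ℕ, χ 1 = (n : ℂ) ∧ n.factorization p = (Nat.card H).factorization p

/-- `N_{E/G}(C, ψ)`: the image in `E / G` of the stabiliser of `ψ ∈ Irr(N_G(C))` in `S = N_E(C)`. -/
noncomputable def stab {E : Type} [Group E] (G S : Subgroup E) [G.Normal]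
    (ψ : (G ⊓ S : Subgroup E) → ℂ) : Subgroup (E ⧸ G) :=
  (inert G S ψ).map (QuotientGroup.mk' G)

/-- the number of the irreducible characters `ψ` of `N_G(C)` such that `N_{E/G}(C, ψ)` contains the
coset `e` -/
noncomputable def inv {E : Type} [Group E] (G : Subgroup E) [G.Normal] (e : E ⧸ G)
    (S : Subgroup E) : ℕ :=
  Nat.card {ψ : (G ⊓ S : Subgroup E) → ℂ // IsIrreducibleCharacter ψ ∧ e ∈ stab G S ψ}

/-- the number of the irreducible characters of `G` (the case of the chain with the only member `1`,
`S = E`) of defect zero invariant under the coset `e` -/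
noncomputable def inv0 {E : Type} [Group E] (p : ℕ) (G : Subgroup E) [G.Normal] (e : E ⧸ G) : ℕ :=
  Nat.card {ψ : (G ⊓ ⊤ : Subgroup E) → ℂ // IsIrreducibleCharacter ψ ∧ DefectZero p ψ ∧
    e ∈ stab G ⊤ ψ}

/-- The failure of the equality of Knörr and Robinson for `H`: `∑_σ (-1)^|σ| k(H_σ) - z_p(H)`, where
`σ` runs through the classes of chains of nontrivial `p`-subgroups of `H` (the empty chain included),
`k(H_σ)` is the class number of the stabiliser and `z_p(H)` the number of the irreducible characters
of `H` of defect zero. -/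
noncomputable def failure (p : ℕ) (H : Type) [Group H] : ℤ :=
  alternatingSum p H (fun K => (Nat.card (ConjClasses K) : ℤ)) -
    (Nat.card {χ : H → ℂ // IsIrreducibleCharacter χ ∧ DefectZero p χ} : ℤ)

/-- `C_G(u)` -/
def C {E : Type} [Group E] (G : Subgroup E) (u : E) : Subgroup E :=
  G ⊓ Subgroup.centralizer ({u} : Set E)

/-- **Theorem.** Let `G` be a normal subgroup of the finite group `E` with `O_p(G) = 1`.  If the coset
`eG` has order `p^a` in `E / G`,
`|G| (∑_C (-1)^|C| #{ψ ∈ Irr(N_G(C)) : eG ∈ N_{E/G}(C, ψ)} - #{ψ ∈ Irr(G) of defect zero : eG fixes ψ})`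
is equal to `∑_u |C_G(u)| failure(C_G(u))`, `u` running through the elements of `eG` of order `p^a`.
`C` runs through representatives of the `G`-classes of radical `p`-chains of `G`. -/
theorem result (p : ℕ) (hp : p.Prime) (E : Type) [Group E] [Finite E] (G : Subgroup E) [G.Normal]
    (hO : IsOp p G ⊥) (e : E) (a : ℕ) (he : orderOf (e : E ⧸ G) = p ^ a) :
    (Nat.card G : ℤ) * (radSum p G (fun S => (inv G (e : E ⧸ G) S : ℤ)) -
        (inv0 p G (e : E ⧸ G) : ℤ)) =
      ∑ᶠ u : {u : E // u * e⁻¹ ∈ G ∧ orderOf u = p ^ a},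
        (Nat.card (C G (u : E)) : ℤ) * failure p (C G (u : E)) := by
  have : Fact p.Prime := ⟨hp⟩
  have : Fintype E := Fintype.ofFinite E
  have hO' := Pool.Agent.Q100.IV.isOp_iff.mp hO
  have haa : ∀ (e : E) (S : Subgroup E), inv G (e : E ⧸ G) S = Pool.Agent.Q100.IV.aa G S e := by
    intro e S
    unfold inv Pool.Agent.Q100.IV.aa
    refine Nat.card_congr (Equiv.subtypeEquivRight fun ψ => and_congr Iff.rfl ?_)
    unfold stab
    rw [Subgroup.mem_map]
    constructor
    · rintro ⟨y, ⟨hy, hf⟩, hye⟩
      exact ⟨y, hy, Pool.Agent.Q100.IV.coset_iff.mpr hye, hf⟩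
    · rintro ⟨y, hy, hye, hf⟩
      exact ⟨y, ⟨hy, hf⟩, Pool.Agent.Q100.IV.coset_iff.mp hye⟩
  have h1 := Pool.Agent.Q100.IV.diff_split (p := p) hO' he
  simp only [haa]
  refine Eq.trans h1 ?_
  rw [finsum_eq_sum_of_fintype, Finset.sum_subtype (Finset.univ.filter (fun u : E =>
    u * e⁻¹ ∈ G ∧ orderOf u = p ^ a)) (p := fun u : E => u * e⁻¹ ∈ G ∧ orderOf u = p ^ a)
    (fun u => by simp)]
  rfl

end Pool.Agent.Results.MP_baa4d7_al.ReductionToCentralizers
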